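import Mathlib
import Pool.Agent.Q87.Sharp.Generic

/-!
# A Fraïssé structure without structurally sharply 2-transitive actions

The structure is the generic countable set with a distinguished element of every 4-element subset.
-/

set_option autoImplicit false

namespace Pool.Agent.Results.MP_d71e54_al.NoSharpTwo

open FirstOrder FirstOrder.Language Pool.Agent.Q87.Sharp

/-- one relation symbol, of arity four -/
inductive R4 : ℕ → Type
  | d : R4 4

/-- the language with one relation symbol of arity four -/
def L4 : FirstOrder.Language.{0, 0} := ⟨fun _ => Empty, R4⟩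

instance : L4.IsRelational := fun _ => inferInstanceAs (IsEmpty Empty)

/-- an enumeration of the finite sets of pairs in which every set occurs arbitrarily late -/
theorem exists_code : ∃ code : ℕ → Finset (Finset ℕ × ℕ), ∀ P, ∀ N, ∃ n, N < n ∧ code n = P := by
  obtain ⟨e, he⟩ := exists_surjective_nat (Finset (Finset ℕ × ℕ))
  refine ⟨fun n => e (Nat.unpair n).1, fun P N => ?_⟩
  obtain ⟨a, ha⟩ := he P
  refine ⟨Nat.pair a (N + 1), ?_, ?_⟩
  · have := Nat.right_le_pair a (N + 1); omega
  · simp [ha]

/-- the enumeration -/
noncomputable def code : ℕ → Finset (Finset ℕ × ℕ) := exists_code.choose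

theorem code_spec (P : Finset (Finset ℕ × ℕ)) (N : ℕ) : ∃ n, N < n ∧ code n = P :=
  exists_code.choose_spec P N

/-- the greatest element -/
def top (S : Finset ℕ) : ℕ := S.sup id

open Classical in
/-- the distinguished element -/
@[irreducible] noncomputable def ch (S : Finset ℕ) : ℕ :=
  if h : ∃ t ∈ S.erase (top S), (S.erase (top S), t) ∈ code (top S) then h.choose else top S

theorem ch_eq_of {S : Finset ℕ} {t : ℕ} (h1 : t ∈ S.erase (top S))
    (h2 : (S.erase (top S), t) ∈ code (top S))
    (h3 : ∀ t', (S.erase (top S), t') ∈ code (top S) → t' = t) : ch S = t := by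
  have hex : ∃ t ∈ S.erase (top S), (S.erase (top S), t) ∈ code (top S) := ⟨t, h1, h2⟩
  unfold ch
  rw [dif_pos hex]
  exact h3 _ hex.choose_spec.2

theorem ch_eq_top {S : Finset ℕ} (h : ∀ t, (S.erase (top S), t) ∉ code (top S)) :
    ch S = top S := by
  unfold ch
  rw [dif_neg]
  rintro ⟨t, _, ht⟩
  exact h t ht

theorem inj4 {a b c d : ℕ} (h1 : a ≠ b) (h2 : a ≠ c) (h3 : a ≠ d) (h4 : b ≠ c) (h5 : b ≠ d)
    (h6 : c ≠ d) : Function.Injective (![a, b, c, d] : Fin 4 → ℕ) := by
  intro i j hij
  fin_cases i <;> fin_cases j <;> first | rfl | (exfalso; simp at hij; omega)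

theorem image4 (a b c d : ℕ) :
    Finset.univ.image (![a, b, c, d] : Fin 4 → ℕ) = {a, b, c, d} := by
  ext y
  simp only [Finset.mem_image, Finset.mem_univ, true_and, Finset.mem_insert,
    Finset.mem_singleton]
  constructor
  · rintro ⟨i, rfl⟩; fin_cases i <;> simp
  · rintro (rfl | rfl | rfl | rfl)
    · exact ⟨0, rfl⟩
    · exact ⟨1, rfl⟩
    · exact ⟨2, rfl⟩
    · exact ⟨3, rfl⟩

theorem ch_mem {S : Finset ℕ} (hS : S.Nonempty) : ch S ∈ S := by
  unfold ch
  split_ifs with h
  · exact Finset.mem_of_mem_erase h.choose_spec.1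
  · unfold top
    obtain ⟨x, hx, hx2⟩ := Finset.exists_mem_eq_sup S hS id
    rw [hx2]; exact hx

noncomputable instance str : L4.Structure ℕ where
  funMap := fun {n} f _ => (f : Empty).elim
  RelMap := fun {n} R => match n, R with
    | _, R4.d => fun x => Function.Injective x ∧ ch (Finset.univ.image x) = x 0

theorem rel_iff (x : Fin 4 → ℕ) :
    Structure.RelMap (L := L4) (R4.d : L4.Relations 4) x ↔
      Function.Injective x ∧ ch (Finset.univ.image x) = x 0 := Iff.rfl

theorem ep : EP L4 ℕ := by
  classical
  intro F f hf m hm E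
  set P : Finset (Finset ℕ × ℕ) :=
    ((F.powersetCard 3).filter fun T => ch (insert m T) ≠ m).image
      (fun T => (T.image f, f (ch (insert m T)))) with hP
  obtain ⟨m', hm', hcode⟩ := code_spec P ((F.image f ∪ E).sup id)
  have hlt : ∀ x ∈ F.image f ∪ E, x < m' := fun x hx =>
    lt_of_le_of_lt (Finset.le_sup (f := id) hx) hm'
  have hltF : ∀ x ∈ F, f x < m' := fun x hx =>
    hlt _ (Finset.mem_union_left _ (Finset.mem_image_of_mem _ hx))
  have hinj : Set.InjOn f F := hf.1
  set g := Function.update f m m' with hg
  have hgm : g m = m' := by rw [hg, Function.update_self]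
  have hgF : ∀ x ∈ F, g x = f x := by
    intro x hx
    rw [hg, Function.update_of_ne]
    rintro rfl; exact hm hx
  have ginj : Set.InjOn g (insert m F : Finset ℕ) := by
    intro x hx y hy hxy
    rw [Finset.mem_coe, Finset.mem_insert] at hx hy
    rcases hx with hx | hx <;> rcases hy with hy | hy
    · rw [hx, hy]
    · rw [hx, hgm, hgF y hy] at hxy
      exact absurd hxy (hltF y hy).ne'
    · rw [hy, hgm, hgF x hx] at hxy
      exact absurd hxy (hltF x hx).ne
    · rw [hgF x hx, hgF y hy] at hxy
      exact hinj (Finset.mem_coe.2 hx) (Finset.mem_coe.2 hy) hxy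
  -- the distinguished elements of the sets containing `m`
  have key : ∀ T : Finset ℕ, T ⊆ F → T.card = 3 →
      ch (insert m' (T.image f)) = g (ch (insert m T)) := by
    intro T hT hT3
    have htop : top (insert m' (T.image f)) = m' := by
      unfold top
      rw [Finset.sup_insert]
      apply sup_eq_left.2
      apply Finset.sup_le
      intro x hx
      obtain ⟨y, hy, rfl⟩ := Finset.mem_image.1 hx
      exact (hltF y (hT hy)).le
    have hnot : m' ∉ T.image f := by
      intro h
      obtain ⟨y, hy, hym⟩ := Finset.mem_image.1 h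
      exact absurd hym (hltF y (hT hy)).ne
    have her : (insert m' (T.image f)).erase m' = T.image f := Finset.erase_insert hnot
    have huniq : ∀ T' ⊆ F, T'.image f = T.image f → T' = T := by
      intro T' hT' h
      ext x
      constructor
      · intro hx
        have : f x ∈ T.image f := by rw [← h]; exact Finset.mem_image_of_mem _ hx
        obtain ⟨y, hy, hyx⟩ := Finset.mem_image.1 this
        have := hinj (Finset.mem_coe.2 (hT hy)) (Finset.mem_coe.2 (hT' hx)) hyx
        rwa [← this]
      · intro hx
        have : f x ∈ T'.image f := by rw [h]; exact Finset.mem_image_of_mem _ hx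
        obtain ⟨y, hy, hyx⟩ := Finset.mem_image.1 this
        have := hinj (Finset.mem_coe.2 (hT' hy)) (Finset.mem_coe.2 (hT hx)) hyx
        rwa [← this]
    have hcmem : ch (insert m T) ∈ insert m T := ch_mem (Finset.insert_nonempty _ _)
    by_cases hc : ch (insert m T) = m
    · rw [hc, hgm]
      have := ch_eq_top (S := insert m' (T.image f)) (by
        rw [htop, her, hcode]
        intro t ht
        rw [hP, Finset.mem_image] at ht
        obtain ⟨T', hT', hTT⟩ := ht
        obtain ⟨h1, h2⟩ := Finset.mem_filter.1 hT'
        have h3 := huniq T' (Finset.mem_powersetCard.1 h1).1 (Prod.mk.inj hTT).1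
        rw [h3] at h2
        exact h2 hc)
      rw [this, htop]
    · have hcT : ch (insert m T) ∈ T := by
        rcases Finset.mem_insert.1 hcmem with h | h
        · exact absurd h hc
        · exact h
      rw [hgF _ (hT hcT)]
      apply ch_eq_of
      · rw [htop, her]; exact Finset.mem_image_of_mem _ hcT
      · rw [htop, her, hcode, hP, Finset.mem_image]
        exact ⟨T, Finset.mem_filter.2 ⟨Finset.mem_powersetCard.2 ⟨hT, hT3⟩, hc⟩, rfl⟩
      · rw [htop, her, hcode]
        intro t' ht'
        rw [hP, Finset.mem_image] at ht'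
        obtain ⟨T', hT', hTT⟩ := ht'
        obtain ⟨h2, _⟩ := Finset.mem_filter.1 hT'
        have h3 := huniq T' (Finset.mem_powersetCard.1 h2).1 (Prod.mk.inj hTT).1
        rw [h3] at hTT
        exact (Prod.mk.inj hTT).2.symm
  refine ⟨m', fun h => absurd (hlt m' (Finset.mem_union_right _ h)) (lt_irrefl _), ginj, ?_⟩
  intro n R x hx
  cases R
  change Structure.RelMap (L := L4) (R4.d : L4.Relations 4) (fun i => g (x i)) ↔
    Structure.RelMap (L := L4) (R4.d : L4.Relations 4) x
  rw [rel_iff, rel_iff]
  have hginj : Function.Injective (fun i => g (x i)) ↔ Function.Injective x := by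
    constructor
    · intro h i j hij
      apply h
      simp only [hij]
    · intro h i j hij
      exact h (ginj (Finset.mem_coe.2 (hx i)) (Finset.mem_coe.2 (hx j)) hij)
  rw [hginj]
  apply and_congr_right
  intro hxi
  by_cases hmx : ∃ i, x i = m
  · -- the tuple contains `m`
    set S := Finset.univ.image x with hS
    have hmS : m ∈ S := by
      obtain ⟨i, hi⟩ := hmx
      rw [hS, ← hi]; exact Finset.mem_image_of_mem _ (Finset.mem_univ _)
    have hSc : S.card = 4 := by rw [hS, Finset.card_image_of_injective _ hxi]; simp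
    have hSF : S ⊆ insert m F := by
      intro y hy
      obtain ⟨i, _, rfl⟩ := Finset.mem_image.1 hy
      exact hx i
    have hT : S.erase m ⊆ F := by
      intro y hy
      obtain ⟨h1, h2⟩ := Finset.mem_erase.1 hy
      rcases Finset.mem_insert.1 (hSF h2) with h | h
      · exact absurd h h1
      · exact h
    have hT3 : (S.erase m).card = 3 := by rw [Finset.card_erase_of_mem hmS, hSc]
    have h1 := key _ hT hT3
    rw [Finset.insert_erase hmS] at h1
    have h2 : Finset.univ.image (fun i => g (x i)) = insert m' ((S.erase m).image f) := by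
      have h3 : Finset.univ.image (fun i => g (x i)) = S.image g := by
        rw [hS, Finset.image_image]; rfl
      rw [h3]
      conv_lhs => rw [← Finset.insert_erase hmS]
      rw [Finset.image_insert, hgm]
      congr 1
      apply Finset.image_congr
      intro y hy
      exact hgF y (hT hy)
    rw [h2, h1]
    constructor
    · intro h
      have hc : ch S ∈ insert m F := hSF (ch_mem ⟨m, hmS⟩)
      exact ginj (Finset.mem_coe.2 hc) (Finset.mem_coe.2 (hx 0)) h
    · intro h; rw [h]
  · push Not at hmx
    have hxF : ∀ i, x i ∈ F := by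
      intro i
      rcases Finset.mem_insert.1 (hx i) with h | h
      · exact absurd h (hmx i)
      · exact h
    have h1 : (fun i => g (x i)) = fun i => f (x i) := by
      funext i; exact hgF _ (hxF i)
    have h2 := hf.2 4 (R4.d : L4.Relations 4) x hxF
    rw [rel_iff, rel_iff] at h2
    rw [h1, hgF _ (hxF 0)]
    have hfinj : Function.Injective (fun i => f (x i)) := by
      rw [← h1]; exact hginj.2 hxi
    constructor
    · intro h; exact (h2.1 ⟨hfinj, h⟩).2
    · intro h; exact (h2.2 ⟨hxi, h⟩).2

/-- There is a countably infinite ultrahomogeneous relational structure `M` whose age has strong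
amalgamation and which admits no structurally sharply `2`-transitive action of any group. -/
theorem result.{u} :
    ∃ (L : FirstOrder.Language.{0, 0}) (_ : L.IsRelational) (M : Type) (_ : L.Structure M),
      Countable M ∧ Infinite M ∧ L.IsUltrahomogeneous M ∧ StrongAmalgamation (L.age M) ∧
      ∀ (G : Type u) [Group G] [MulAction G M],
        (∀ g : G, ∃ e : M ≃[L] M, ∀ x, e x = g • x) →
        ¬ ∀ a b : Fin 2 → M, Function.Injective a → Function.Injective b → SameType L a b →
            ∃! g : G, ∀ i, g • a i = b i := by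
  classical
  refine ⟨L4, inferInstance, ℕ, str, inferInstance, inferInstance, ep.ultra,
    strongAmalgamation_of_no_alg ep.ultra ep.no_alg, ?_⟩
  intro G _ _ haut hsharp
  -- all pairs have the same type
  have hsame : ∀ a b : Fin 2 → ℕ, SameType L4 a b := by
    intro a b n R s
    cases R
    have hs : ¬ Function.Injective s := fun h => by
      have := Fintype.card_le_of_injective s h
      simp at this
    have h1 : ∀ c : Fin 2 → ℕ, ¬ Structure.RelMap (L := L4) (R4.d : L4.Relations 4)
        (fun i => c (s i)) := by
      intro c hc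
      rw [rel_iff] at hc
      exact hs fun i j hij => hc.1 (by simp only [hij])
    exact ⟨fun h => absurd h (h1 a), fun h => absurd h (h1 b)⟩
  have hinj2 : ∀ p q : ℕ, p ≠ q → Function.Injective (![p, q] : Fin 2 → ℕ) := by
    intro p q hpq i j hij
    fin_cases i <;> fin_cases j <;> simp_all
  -- a nontrivial element fixes at most one point
  have hfix : ∀ g : G, ∀ p q : ℕ, p ≠ q → g • p = p → g • q = q → g = 1 := by
    intro g p q hpq hp hq
    obtain ⟨g', _, hu⟩ := hsharp ![p, q] ![p, q] (hinj2 p q hpq) (hinj2 p q hpq) (hsame _ _)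
    rw [hu g (by intro i; fin_cases i <;> simp [hp, hq]),
      hu 1 (by intro i; simp)]
  obtain ⟨g, hg, _⟩ := hsharp ![0, 1] ![1, 0] (hinj2 0 1 (by norm_num)) (hinj2 1 0 (by norm_num))
    (hsame _ _)
  have g0 : g • (0 : ℕ) = 1 := by simpa using hg 0
  have g1 : g • (1 : ℕ) = 0 := by simpa using hg 1
  have gg : g * g = 1 := hfix (g * g) 0 1 (by norm_num) (by rw [mul_smul, g0, g1])
    (by rw [mul_smul, g1, g0])
  have ginv : ∀ x : ℕ, g • (g • x) = x := by intro x; rw [← mul_smul, gg, one_smul]
  have gne : g ≠ 1 := by
    rintro rfl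
    rw [one_smul] at g0
    exact absurd g0 (by norm_num)
  obtain ⟨c, hc2, hc⟩ : ∃ c : ℕ, 2 ≤ c ∧ g • c ≠ c := by
    by_contra hcon
    push Not at hcon
    exact gne (hfix g 2 3 (by norm_num) (hcon 2 le_rfl) (hcon 3 (by norm_num)))
  obtain ⟨e, he⟩ := haut g
  -- the contradiction
  have key : ∀ p q : ℕ, g • p ≠ p → g • q ≠ q → p ≠ q → p ≠ g • q →
      ch {p, g • p, q, g • q} ≠ p := by
    intro p q hp hq hpq hpq' hch
    have hpq2 : g • p ≠ q := by
      intro h
      apply hpq'
      rw [← h, ginv]
    have hpq3 : g • p ≠ g • q := fun h => hpq (by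
      have := congrArg (g • ·) h
      simpa only [ginv] using this)
    have hx : Function.Injective (![p, g • p, q, g • q] : Fin 4 → ℕ) :=
      inj4 hp.symm hpq hpq' hpq2 hpq3 hq.symm
    have himg := image4 p (g • p) q (g • q)
    have hrel : Structure.RelMap (L := L4) (R4.d : L4.Relations 4) ![p, g • p, q, g • q] := by
      rw [rel_iff, himg]
      exact ⟨hx, hch⟩
    have hrel2 := (e.map_rel (R4.d : L4.Relations 4) ![p, g • p, q, g • q]).2 hrel
    rw [rel_iff] at hrel2
    have himg2 : Finset.univ.image (e ∘ (![p, g • p, q, g • q] : Fin 4 → ℕ)) =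
        {p, g • p, q, g • q} := by
      rw [← Finset.image_image, himg]
      ext y
      simp only [Finset.image_insert, Finset.image_singleton, he, ginv, Finset.mem_insert,
        Finset.mem_singleton]
      tauto
    rw [himg2, hch] at hrel2
    have h0 : (e ∘ (![p, g • p, q, g • q] : Fin 4 → ℕ)) 0 = g • p := he p
    rw [h0] at hrel2
    exact hp hrel2.2.symm
  have hgc0 : g • c ≠ 0 := by
    intro h
    have := congrArg (g • ·) h
    simp only [ginv, g0] at this
    omega
  have hgc1 : g • c ≠ 1 := by
    intro h
    have := congrArg (g • ·) h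
    simp only [ginv, g1] at this
    omega
  have hmem := ch_mem (S := {0, 1, c, g • c}) ⟨0, by simp⟩
  simp only [Finset.mem_insert, Finset.mem_singleton] at hmem
  have e1 : ({1, 0, c, g • c} : Finset ℕ) = {0, 1, c, g • c} := by
    ext y; simp only [Finset.mem_insert, Finset.mem_singleton]; tauto
  have e2 : ({c, g • c, 0, 1} : Finset ℕ) = {0, 1, c, g • c} := by
    ext y; simp only [Finset.mem_insert, Finset.mem_singleton]; tauto
  have e3 : ({g • c, c, 0, 1} : Finset ℕ) = {0, 1, c, g • c} := by
    ext y; simp only [Finset.mem_insert, Finset.mem_singleton]; tauto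
  rcases hmem with h | h | h | h
  · have := key 0 c (by rw [g0]; norm_num) hc (by omega) (Ne.symm hgc0)
    rw [g0] at this
    exact this h
  · have := key 1 c (by rw [g1]; norm_num) hc (by omega) (Ne.symm hgc1)
    rw [g1, e1] at this
    exact this h
  · have := key c 0 hc (by rw [g0]; norm_num) (by omega) (by rw [g0]; omega)
    rw [g0, e2] at this
    exact this h
  · have := key (g • c) 0 (by rw [ginv]; exact hc.symm) (by rw [g0]; norm_num) hgc0
      (by rw [g0]; exact hgc1)
    rw [g0, ginv, e3] at this
    exact this h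

end Pool.Agent.Results.MP_d71e54_al.NoSharpTwo
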